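import Mathlib
import Pool.Agent.Helper557.PadicFinal

set_option autoImplicit false

namespace Pool.Agent.Results.MP_cbb20d_al.EveryPrime

/-- For every prime `p` and every `m` there are `n` and `A, B` in `GL_n(Z_p)` with
`AB = BA` modulo `p ^ m` such that no commuting pair of matrices over `Z_p` is congruent
to `(A, B)` modulo `p ^ 2`. -/
theorem result (p : ℕ) [Fact (Nat.Prime p)] (m : ℕ) :
    ∃ (n : ℕ) (A B : Matrix (Fin n) (Fin n) ℤ_[p]), IsUnit A ∧ IsUnit B ∧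
      (∀ i j : Fin n, (p : ℤ_[p]) ^ m ∣ (A * B - B * A) i j) ∧
      ¬ ∃ A' B' : Matrix (Fin n) (Fin n) ℤ_[p], A' * B' = B' * A' ∧
        (∀ i j : Fin n, (p : ℤ_[p]) ^ 2 ∣ (A - A') i j) ∧
        (∀ i j : Fin n, (p : ℤ_[p]) ^ 2 ∣ (B - B') i j) := by
  obtain ⟨n, A, B, hA, hB, hAB, hno⟩ := Pool.Agent.Helper557.PadicFinal.main p m
  refine ⟨n, A, B, hA, hB, hAB, ?_⟩
  rintro ⟨A', B', hc, h1, h2⟩
  exact hno A' B' hc h1 h2

end Pool.Agent.Results.MP_cbb20d_al.EveryPrime
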